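import Pool.Agent.TH940.WD.D
import Pool.Agent.TH882.WM3

/-! From a positive proportion in one short interval at each scale to positive lower density, with
the help of a few more k-th powers. -/

set_option autoImplicit false

namespace Pool.Agent.TH940.WD

open Finset Filter Topology

lemma growth (C lam θ : ℝ) (hC : 1 ≤ C) (h : lam < θ) (hθ : 0 ≤ θ) :
    ∃ N₀ : ℕ, ∀ N : ℕ, N₀ ≤ N → C * (N : ℝ) ^ lam ≤ ((N / 2 : ℕ) : ℝ) ^ θ := by
  have ht := ((tendsto_rpow_atTop (show 0 < θ - lam by linarith)).comp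
    tendsto_natCast_atTop_atTop).eventually_ge_atTop (C * 4 ^ θ)
  obtain ⟨N₀, hN₀⟩ := eventually_atTop.1 ht
  refine ⟨max N₀ 4, fun N hN => ?_⟩
  have h1 : C * 4 ^ θ ≤ (N : ℝ) ^ (θ - lam) := hN₀ N ((le_max_left _ _).trans hN)
  have h2 : 4 ≤ N := (le_max_right _ _).trans hN
  have hN0 : (0 : ℝ) < N := by exact_mod_cast (by omega : 0 < N)
  have h3 : (N : ℝ) / 4 ≤ ((N / 2 : ℕ) : ℝ) := by
    have h4 : N ≤ 4 * (N / 2) := by omega
    have h5 : (N : ℝ) ≤ 4 * ((N / 2 : ℕ) : ℝ) := by exact_mod_cast h4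
    linarith
  have h4θ : (0 : ℝ) < 4 ^ θ := by positivity
  calc C * (N : ℝ) ^ lam = (C * 4 ^ θ) * (N : ℝ) ^ lam / 4 ^ θ := by field_simp
    _ ≤ (N : ℝ) ^ (θ - lam) * (N : ℝ) ^ lam / 4 ^ θ := by gcongr
    _ = (N : ℝ) ^ θ / 4 ^ θ := by
        rw [← Real.rpow_add hN0]
        congr 2
        ring
    _ = ((N : ℝ) / 4) ^ θ := by rw [Real.div_rpow hN0.le (by norm_num)]
    _ ≤ ((N / 2 : ℕ) : ℝ) ^ θ := Real.rpow_le_rpow (by positivity) h3 hθ

/-- approximation by sums of `j` k-th powers from below -/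
lemma approx (k : ℕ) (hk : 2 ≤ k) (j : ℕ) : ∃ C : ℝ, 1 ≤ C ∧ ∃ R₀ : ℕ, ∀ R : ℕ, R₀ ≤ R →
    ∃ f : Fin j → ℕ, ∑ l, f l ^ k ≤ R ∧
      (R : ℝ) - ((∑ l, f l ^ k : ℕ) : ℝ) ≤ C * (R : ℝ) ^ ((1 - 1 / (k : ℝ)) ^ j) := by
  obtain ⟨C, hC, h⟩ := Pool.Agent.TH882.WM.greedy k 1 1 hk le_rfl le_rfl j
  refine ⟨C, hC, j * (1 * 1 + 2 * 1) ^ k, fun R hR => ?_⟩
  obtain ⟨f, -, h2, h3⟩ := h (fun _ => 0) (fun _ => Nat.zero_le _) (fun _ => 0) (fun _ => by norm_num) R hR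
  have e : ∑ l, Pool.Agent.TH882.WM.val k 1 (fun _ => 0) (1 * 1 * f l + 0) = ∑ l, f l ^ k := by
    apply sum_congr rfl
    intro l _
    simp [Pool.Agent.TH882.WM.val]
  rw [e] at h2 h3
  exact ⟨f, h2, h3⟩

open Classical in
theorem spread (k : ℕ) (hk : 2 ≤ k) (j : ℕ) (θ : ℝ) (hj : (1 - 1 / (k : ℝ)) ^ j < θ)
    (S : Set ℕ) (δ : ℝ) (hδ : 0 < δ) (Z₀ : ℕ)
    (hS : ∀ Z : ℕ, Z₀ ≤ Z → ∃ u H : ℕ, (Z : ℝ) ^ θ ≤ H ∧ u + H ≤ Z ∧
      δ * H ≤ (((Ico u (u + H)).filter (fun n => n ∈ S)).card : ℝ)) :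
    ∃ n₀ : ℕ, ∀ N : ℕ, n₀ ≤ N → δ / 8 * N ≤ cnt (Sh S k j) N := by
  have hkr : (2 : ℝ) ≤ k := by exact_mod_cast hk
  have hlam0 : 0 ≤ (1 - 1 / (k : ℝ)) ^ j := by
    apply pow_nonneg
    have : 1 / (k : ℝ) ≤ 1 := by rw [div_le_one (by linarith)]; linarith
    linarith
  have hθ : 0 ≤ θ := hlam0.trans hj.le
  obtain ⟨C, hC, R₀, happ⟩ := approx k hk j
  obtain ⟨N₂, hgr⟩ := growth C _ θ hC hj hθ
  refine ⟨max N₂ (max (2 * Z₀ + 2) (4 * R₀ + 4)), fun N hN => ?_⟩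
  have hN2 : N₂ ≤ N := (le_max_left _ _).trans hN
  have hN3 : 2 * Z₀ + 2 ≤ N := ((le_max_left _ _).trans (le_max_right _ _)).trans hN
  have hN4 : 4 * R₀ + 4 ≤ N := ((le_max_right _ _).trans (le_max_right _ _)).trans hN
  set Z := N / 2 with hZ
  obtain ⟨u, H, h1, h2, h3⟩ := hS Z (by omega)
  have hg := (hgr N hN2).trans h1
  have hZ1 : (1 : ℝ) ≤ Z := by exact_mod_cast (by omega : 1 ≤ Z)
  have hH0 : (0 : ℝ) < H := lt_of_lt_of_le (Real.rpow_pos_of_pos (by linarith) θ) h1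
  have hH : 0 < H := by exact_mod_cast hH0
  -- the translations
  have htr : ∀ i : ℕ, R₀ + 2 * H * i ≤ N - Z → ∃ m : ℕ, (∃ f : Fin j → ℕ, m = ∑ l, f l ^ k) ∧
      m ≤ R₀ + 2 * H * i ∧ R₀ + 2 * H * i ≤ m + H := by
    intro i hi
    obtain ⟨f, hf1, hf2⟩ := happ (R₀ + 2 * H * i) (by omega)
    refine ⟨_, ⟨f, rfl⟩, hf1, ?_⟩
    have h4 : (((R₀ + 2 * H * i : ℕ) : ℝ)) ^ ((1 - 1 / (k : ℝ)) ^ j) ≤
        (N : ℝ) ^ ((1 - 1 / (k : ℝ)) ^ j) := by
      apply Real.rpow_le_rpow (Nat.cast_nonneg _) _ hlam0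
      exact_mod_cast (by omega : R₀ + 2 * H * i ≤ N)
    have h5 : ((R₀ + 2 * H * i : ℕ) : ℝ) - ((∑ l, f l ^ k : ℕ) : ℝ) ≤ H :=
      hf2.trans ((mul_le_mul_of_nonneg_left h4 (by linarith)).trans hg)
    have h6 : ((R₀ + 2 * H * i : ℕ) : ℝ) ≤ ((∑ l, f l ^ k + H : ℕ) : ℝ) := by
      push_cast at h5 ⊢
      linarith
    exact_mod_cast h6
  choose! m hm1 hm2 hm3 using htr
  set T : ℕ := (N - Z - R₀) / (2 * H) + 1 with hT
  have hTi : ∀ i < T, R₀ + 2 * H * i ≤ N - Z := by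
    intro i hi
    have h4 : i ≤ (N - Z - R₀) / (2 * H) := by omega
    have h5 : 2 * H * i ≤ N - Z - R₀ :=
      (Nat.mul_le_mul_left _ h4).trans (Nat.mul_div_le _ _)
    omega
  have hTbig : N - Z - R₀ < 2 * H * T := Nat.lt_mul_div_succ _ (by omega)
  set I : Finset ℕ := (Ico u (u + H)).filter (fun n => n ∈ S) with hI
  have hcard : T * I.card ≤ cnt (Sh S k j) N := by
    unfold cnt
    rw [← card_range T, ← card_product]
    apply Finset.card_le_card_of_injOn (fun z => z.2 + m z.1)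
    · rintro ⟨i, n⟩ hz
      rw [mem_coe, mem_product, mem_range] at hz
      obtain ⟨hi, hn⟩ := hz
      rw [hI, mem_filter, mem_Ico] at hn
      simp only at hi hn
      rw [mem_coe, mem_filter, mem_range]
      show n + m i < N ∧ n + m i ∈ Sh S k j
      have h4 := hTi i hi
      have h5 := hm2 i h4
      refine ⟨by omega, n, hn.2, ?_⟩
      obtain ⟨f, hf⟩ := hm1 i h4
      exact ⟨f, by rw [hf]⟩
    · rintro ⟨i, n⟩ hz ⟨i', n'⟩ hz' he
      rw [mem_coe, mem_product, mem_range] at hz hz'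
      obtain ⟨hi, hn⟩ := hz
      obtain ⟨hi', hn'⟩ := hz'
      rw [hI, mem_filter, mem_Ico] at hn hn'
      simp only at hi hn hi' hn' he
      have h4 := hTi i hi
      have h5 := hm2 i h4
      have h6 := hm3 i h4
      have h4' := hTi i' hi'
      have h5' := hm2 i' h4'
      have h6' := hm3 i' h4'
      have hii : i = i' := by
        rcases lt_trichotomy i i' with h | h | h
        · exfalso
          have h7 : 2 * H * (i + 1) ≤ 2 * H * i' := Nat.mul_le_mul_left _ h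
          have h8 : 2 * H * (i + 1) = 2 * H * i + 2 * H := by ring
          omega
        · exact h
        · exfalso
          have h7 : 2 * H * (i' + 1) ≤ 2 * H * i := Nat.mul_le_mul_left _ h
          have h8 : 2 * H * (i' + 1) = 2 * H * i' + 2 * H := by ring
          omega
      subst hii
      have : n = n' := by omega
      rw [this]
  have h7 : (T : ℝ) * (I.card : ℝ) ≤ cnt (Sh S k j) N := by exact_mod_cast hcard
  have h8 : (N : ℝ) ≤ 8 * (T * H) := by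
    have h9 : N ≤ 4 * (2 * H * T) := by omega
    have h10 : (N : ℝ) ≤ 4 * (2 * H * T) := by exact_mod_cast h9
    linarith
  calc δ / 8 * N ≤ δ / 8 * (8 * (T * H)) := mul_le_mul_of_nonneg_left h8 (by positivity)
    _ = T * (δ * H) := by ring
    _ ≤ T * (I.card : ℝ) := mul_le_mul_of_nonneg_left h3 (Nat.cast_nonneg _)
    _ ≤ _ := h7

end Pool.Agent.TH940.WD
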