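import Pool.Agent.H373R2.NB.Weyl
import Pool.Agent.H373R2.NB.FourierZ

/-! Exponential sums over k-th powers, and a counting inequality from them. -/

set_option autoImplicit false

namespace Pool.Agent.TH940.WD

open Finset
open Pool.Agent.Helper602.MK (ee)
open Pool.Agent.Helper602.MK.N_J5b (normsq_sum ee_add ee_int norm_one_sub_ee)
open Pool.Agent.H373R2.NB (IW_all Ph_poly sum_chi chi_conj norm_chi)

/-- a large exponential sum over k-th powers has its frequency near a rational with bounded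
denominator. -/
lemma weyl_k (k : ℕ) (hk : 1 ≤ k) (u : ℝ) (hu : 1 ≤ u) : ∃ Q : ℕ, 1 ≤ Q ∧ ∃ B : ℝ, 1 ≤ B ∧
    ∀ X : ℕ, 1 ≤ X → ∀ θ : ℝ, (X : ℝ) ≤ u * ‖∑ x ∈ range X, ee (θ * ((x ^ k : ℕ) : ℝ))‖ →
      ∃ a : ℤ, |Q * θ - a| ≤ B / (X : ℝ) ^ k := by
  obtain ⟨c, m, hc, hI⟩ := IW_all k hk
  have hc1 : (1 : ℝ) ≤ c := by exact_mod_cast hc
  have hu0 : 0 < u := by linarith
  have hcu : 1 ≤ (c : ℝ) * u ^ m := one_le_mul_of_one_le_of_one_le hc1 (one_le_pow₀ hu)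
  set K : ℕ := ⌊(c : ℝ) * u ^ m⌋₊ with hK
  refine ⟨k.factorial * K.factorial, Nat.one_le_iff_ne_zero.2 (by positivity),
    (K.factorial : ℝ) * (c * u ^ m), ?_, ?_⟩
  · have h1 : (1 : ℝ) ≤ K.factorial := by exact_mod_cast Nat.factorial_pos K
    exact one_le_mul_of_one_le_of_one_le h1 hcu
  · intro X hX θ hS
    have hph := Ph_poly k (Polynomial.X ^ k) (by simp) θ
    have hX0 : (0 : ℝ) < X := by exact_mod_cast hX
    obtain ⟨q, hq1, hqc, a, ha⟩ := hI X u _ _ hX hu hph (by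
      refine hS.trans (le_of_eq ?_)
      congr 2
      apply sum_congr rfl
      intro n _
      congr 1
      simp)
    have hqK : q ≤ K := Nat.le_floor hqc
    obtain ⟨r, hr⟩ : q ∣ K.factorial := Nat.dvd_factorial (by omega) hqK
    have hrK : (r : ℝ) ≤ K.factorial := by
      have h1 : r ≤ K.factorial := by
        rw [hr]
        exact Nat.le_mul_of_pos_left _ (by omega)
      exact_mod_cast h1
    refine ⟨r * a, ?_⟩
    have hr' : (K.factorial : ℝ) = q * r := by exact_mod_cast hr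
    have e1 : ((k.factorial * K.factorial : ℕ) : ℝ) * θ - ((r * a : ℤ) : ℝ) =
        r * (q * (θ * ((k.factorial : ℝ) * ((Polynomial.X ^ k : Polynomial ℤ).coeff k : ℤ))) - a) := by
      rw [Polynomial.coeff_X_pow]
      push_cast
      rw [hr']
      simp
      ring
    rw [e1, abs_mul, Nat.abs_cast]
    calc (r : ℝ) * |(q : ℝ) * (θ * ((k.factorial : ℝ) * ((Polynomial.X ^ k : Polynomial ℤ).coeff k : ℤ))) - a|
        ≤ r * (c * u ^ m / (X : ℝ) ^ k) := mul_le_mul_of_nonneg_left ha (Nat.cast_nonneg _)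
      _ ≤ K.factorial * (c * u ^ m / (X : ℝ) ^ k) := by
          apply mul_le_mul_of_nonneg_right hrK
          positivity
      _ = _ := by ring

/-- the linear sum near an integer frequency. -/
lemma lin_close (L : ℕ) (γ : ℝ) (z : ℤ) :
    ‖(L : ℂ) - ∑ l ∈ range L, ee ((l : ℝ) * γ)‖ ≤ 2 * Real.pi * (L * (L * |γ - z|)) := by
  have h1 : (L : ℂ) - ∑ l ∈ range L, ee ((l : ℝ) * γ) =
      ∑ l ∈ range L, (1 - ee ((l : ℝ) * (γ - z))) := by
    rw [sum_sub_distrib, sum_const, card_range, nsmul_eq_mul, mul_one]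
    congr 1
    apply sum_congr rfl
    intro l _
    have h2 : (l : ℝ) * γ = (l : ℝ) * (γ - z) + ((l * z : ℤ) : ℝ) := by push_cast; ring
    rw [h2, ee_add, ee_int, mul_one]
  rw [h1]
  refine (norm_sum_le _ _).trans ?_
  have h3 : ∀ l ∈ range L, ‖1 - ee ((l : ℝ) * (γ - z))‖ ≤ 2 * Real.pi * (L * |γ - z|) := by
    intro l hl
    rw [norm_one_sub_ee]
    have h4 : |Real.sin (Real.pi * ((l : ℝ) * (γ - z)))| ≤ |Real.pi * ((l : ℝ) * (γ - z))| :=
      Real.abs_sin_le_abs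
    have h5 : |Real.pi * ((l : ℝ) * (γ - z))| = Real.pi * (l * |γ - z|) := by
      rw [abs_mul, abs_mul, abs_of_pos Real.pi_pos, Nat.abs_cast]
    have h6 : (l : ℝ) ≤ L := by
      have := mem_range.1 hl
      exact_mod_cast this.le
    have h7 : (l : ℝ) * |γ - z| ≤ L * |γ - z| := mul_le_mul_of_nonneg_right h6 (abs_nonneg _)
    have h8 := Real.pi_pos
    nlinarith
  refine (sum_le_sum h3).trans (le_of_eq ?_)
  rw [sum_const, card_range, nsmul_eq_mul]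
  ring

/-- the characters in terms of `ee`. -/
lemma chi_ee {M : ℕ} [NeZero M] (ξ : ZMod M) (n : ℕ) :
    (ZMod.stdAddChar (ξ * (n : ZMod M)) : ℂ) = ee ((ξ.val : ℝ) / M * n) := by
  have h1 : ξ * (n : ZMod M) = (((ξ.val * n : ℕ) : ℤ) : ZMod M) := by
    push_cast
    rw [ZMod.natCast_zmod_val]
  rw [h1, ZMod.stdAddChar_coe]
  unfold Pool.Agent.Helper602.MK.ee
  congr 1
  push_cast
  ring

section
variable {M : ℕ} [NeZero M]

lemma four (E A : Finset ℕ) (X L : ℕ) (p q : ℕ → ℕ) :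
    ∑ ξ : ZMod M, (starRingEnd ℂ) (∑ e ∈ E, (ZMod.stdAddChar (ξ * (e : ZMod M)) : ℂ)) *
      ((∑ a ∈ A, (ZMod.stdAddChar (ξ * (a : ZMod M)) : ℂ)) *
      ((∑ x ∈ range X, (ZMod.stdAddChar (ξ * (p x : ZMod M)) : ℂ)) *
      (∑ l ∈ range L, (ZMod.stdAddChar (ξ * (q l : ZMod M)) : ℂ)))) =
    (M : ℂ) * ((∑ e ∈ E, ∑ a ∈ A, ∑ x ∈ range X, ∑ l ∈ range L,
      (if (e : ZMod M) = a + p x + q l then (1 : ℝ) else 0) : ℝ) : ℂ) := by
  have h1 : ∀ ξ : ZMod M, (starRingEnd ℂ) (∑ e ∈ E, (ZMod.stdAddChar (ξ * (e : ZMod M)) : ℂ)) *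
      ((∑ a ∈ A, (ZMod.stdAddChar (ξ * (a : ZMod M)) : ℂ)) *
      ((∑ x ∈ range X, (ZMod.stdAddChar (ξ * (p x : ZMod M)) : ℂ)) *
      (∑ l ∈ range L, (ZMod.stdAddChar (ξ * (q l : ZMod M)) : ℂ)))) =
      ∑ e ∈ E, ∑ a ∈ A, ∑ x ∈ range X, ∑ l ∈ range L,
        (ZMod.stdAddChar (ξ * ((a : ZMod M) + (p x : ZMod M) + (q l : ZMod M) - (e : ZMod M))) : ℂ) := by
    intro ξ
    rw [map_sum, sum_mul]
    apply sum_congr rfl; intro e _
    rw [sum_mul, mul_sum]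
    apply sum_congr rfl; intro a _
    rw [sum_mul, mul_sum, mul_sum]
    apply sum_congr rfl; intro x _
    rw [mul_sum, mul_sum, mul_sum]
    apply sum_congr rfl; intro l _
    rw [chi_conj, ← AddChar.map_add_eq_mul, ← AddChar.map_add_eq_mul, ← AddChar.map_add_eq_mul]
    congr 1
    ring
  rw [sum_congr rfl fun ξ _ => h1 ξ, sum_comm]
  push_cast
  rw [mul_sum]
  apply sum_congr rfl; intro e _
  rw [sum_comm, mul_sum]
  apply sum_congr rfl; intro a _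
  rw [sum_comm, mul_sum]
  apply sum_congr rfl; intro x _
  rw [sum_comm, mul_sum]
  apply sum_congr rfl; intro l _
  rw [sum_chi]
  by_cases h : (e : ZMod M) = a + p x + q l
  · rw [if_pos h, if_pos (by rw [h]; ring)]
    simp
  · rw [if_neg h, if_neg (fun h3 => h (by linear_combination -h3))]
    simp

lemma pars (E : Finset ℕ) (hE : ∀ e ∈ E, e < M) :
    ∑ ξ : ZMod M, ‖∑ e ∈ E, (ZMod.stdAddChar (ξ * (e : ZMod M)) : ℂ)‖ ^ 2 = M * (E.card : ℝ) := by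
  have h1 : ∀ ξ : ZMod M, ((‖∑ e ∈ E, (ZMod.stdAddChar (ξ * (e : ZMod M)) : ℂ)‖ ^ 2 : ℝ) : ℂ) =
      ∑ e ∈ E, ∑ e' ∈ E, (ZMod.stdAddChar (ξ * ((e : ZMod M) - (e' : ZMod M))) : ℂ) := by
    intro ξ
    rw [normsq_sum]
    apply sum_congr rfl; intro e _
    apply sum_congr rfl; intro e' _
    rw [chi_conj, ← AddChar.map_add_eq_mul]
    congr 1
    ring
  have h2 : ((∑ ξ : ZMod M, ‖∑ e ∈ E, (ZMod.stdAddChar (ξ * (e : ZMod M)) : ℂ)‖ ^ 2 : ℝ) : ℂ) =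
      ((M * (E.card : ℝ) : ℝ) : ℂ) := by
    rw [Complex.ofReal_sum, sum_congr rfl fun ξ _ => h1 ξ, sum_comm]
    have h3 : ∀ e ∈ E, ∑ ξ : ZMod M, ∑ e' ∈ E, (ZMod.stdAddChar (ξ * ((e : ZMod M) - (e' : ZMod M))) : ℂ) = M := by
      intro e he
      rw [sum_comm]
      have h4 : ∀ e' ∈ E, ∑ ξ : ZMod M, (ZMod.stdAddChar (ξ * ((e : ZMod M) - (e' : ZMod M))) : ℂ) =
          if e' = e then (M : ℂ) else 0 := by
        intro e' he'
        rw [sum_chi]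
        by_cases h : e' = e
        · rw [if_pos h, if_pos (by rw [h, sub_self])]
        · rw [if_neg h, if_neg]
          intro h5
          apply h
          have h6 : (e : ZMod M) = e' := sub_eq_zero.1 h5
          rw [ZMod.natCast_eq_natCast_iff'] at h6
          rw [Nat.mod_eq_of_lt (hE e he), Nat.mod_eq_of_lt (hE e' he')] at h6
          exact h6.symm
      rw [sum_congr rfl h4, sum_ite_eq' E e, if_pos he]
    rw [sum_congr rfl h3, sum_const, nsmul_eq_mul]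
    push_cast
    ring
  exact_mod_cast h2

/-- the counting inequality. -/
theorem count_ineq (E A : Finset ℕ) (hE : ∀ e ∈ E, e < M) (hA : ∀ a ∈ A, a < M) (X L : ℕ)
    (p q : ℕ → ℕ) (hno : ∀ e ∈ E, ∀ a ∈ A, ∀ x ∈ range X, (e : ZMod M) ≠ a + p x)
    (σ : ℝ) (hσ : ∀ ξ : ZMod M, ‖∑ x ∈ range X, (ZMod.stdAddChar (ξ * (p x : ZMod M)) : ℂ)‖ *
      ‖(L : ℂ) - ∑ l ∈ range L, (ZMod.stdAddChar (ξ * (q l : ZMod M)) : ℂ)‖ ≤ σ) :
    ∑ e ∈ E, ∑ a ∈ A, ∑ x ∈ range X, ∑ l ∈ range L,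
      (if (e : ZMod M) = a + p x + q l then (1 : ℝ) else 0) ≤ σ * ((E.card : ℝ) + A.card) / 2 := by
  have hM : (0 : ℝ) < M := by exact_mod_cast Nat.pos_of_ne_zero (NeZero.ne M)
  set cnt : ℝ := ∑ e ∈ E, ∑ a ∈ A, ∑ x ∈ range X, ∑ l ∈ range L,
      (if (e : ZMod M) = a + p x + q l then (1 : ℝ) else 0) with hcnt
  have h1 := four (M := M) E A X L p q
  have h2 := four (M := M) E A X 1 p (fun _ => 0)
  have h3 : (∑ e ∈ E, ∑ a ∈ A, ∑ x ∈ range X, ∑ l ∈ range 1,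
      (if (e : ZMod M) = a + p x + ((0 : ℕ) : ZMod M) then (1 : ℝ) else 0) : ℝ) = 0 := by
    apply sum_eq_zero; intro e he
    apply sum_eq_zero; intro a ha
    apply sum_eq_zero; intro x hx
    apply sum_eq_zero; intro l _
    rw [if_neg]
    intro h
    apply hno e he a ha x hx
    rw [h]
    push_cast
    ring
  rw [h3] at h2
  simp only [Complex.ofReal_zero, mul_zero, Nat.cast_zero, AddChar.map_zero_eq_one, sum_const,
    card_range, one_smul, mul_one] at h2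
  rw [← hcnt] at h1
  have h4 : (M : ℂ) * (cnt : ℂ) = ∑ ξ : ZMod M,
      (starRingEnd ℂ) (∑ e ∈ E, (ZMod.stdAddChar (ξ * (e : ZMod M)) : ℂ)) *
      ((∑ a ∈ A, (ZMod.stdAddChar (ξ * (a : ZMod M)) : ℂ)) *
      ((∑ x ∈ range X, (ZMod.stdAddChar (ξ * (p x : ZMod M)) : ℂ)) *
      ((∑ l ∈ range L, (ZMod.stdAddChar (ξ * (q l : ZMod M)) : ℂ)) - L))) := by
    rw [← h1, ← sub_zero (∑ ξ : ZMod M, _ * (_ * (_ * _))), ← mul_zero (L : ℂ), ← h2, mul_sum,
      ← sum_sub_distrib]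
    apply sum_congr rfl
    intro ξ _
    ring
  have h5 : ‖(M : ℂ) * (cnt : ℂ)‖ ≤ ∑ ξ : ZMod M,
      σ * (‖∑ e ∈ E, (ZMod.stdAddChar (ξ * (e : ZMod M)) : ℂ)‖ ^ 2 +
        ‖∑ a ∈ A, (ZMod.stdAddChar (ξ * (a : ZMod M)) : ℂ)‖ ^ 2) / 2 := by
    rw [h4]
    refine (norm_sum_le _ _).trans (sum_le_sum fun ξ _ => ?_)
    rw [norm_mul, norm_mul, norm_mul, RCLike.norm_conj]
    have h6 := hσ ξ
    rw [norm_sub_rev] at h6
    set w := ‖∑ x ∈ range X, (ZMod.stdAddChar (ξ * (p x : ZMod M)) : ℂ)‖ *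
      ‖(∑ l ∈ range L, (ZMod.stdAddChar (ξ * (q l : ZMod M)) : ℂ)) - (L : ℂ)‖ with hw
    have hw0 : 0 ≤ w := by rw [hw]; positivity
    set y := ‖∑ e ∈ E, (ZMod.stdAddChar (ξ * (e : ZMod M)) : ℂ)‖
    set z := ‖∑ a ∈ A, (ZMod.stdAddChar (ξ * (a : ZMod M)) : ℂ)‖
    have hy : 0 ≤ y := norm_nonneg _
    have hz : 0 ≤ z := norm_nonneg _
    have h7 : y * z ≤ (y ^ 2 + z ^ 2) / 2 := by nlinarith [sq_nonneg (y - z)]
    calc y * (z * w) = w * (y * z) := by ring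
      _ ≤ σ * (y * z) := mul_le_mul_of_nonneg_right h6 (by positivity)
      _ ≤ σ * ((y ^ 2 + z ^ 2) / 2) := mul_le_mul_of_nonneg_left h7 (hw0.trans h6)
      _ = σ * (y ^ 2 + z ^ 2) / 2 := by ring
  rw [← sum_div, ← mul_sum, sum_add_distrib, pars E hE, pars A hA, norm_mul, Complex.norm_natCast,
    Complex.norm_real] at h5
  have h6 : (M : ℝ) * cnt ≤ M * (σ * ((E.card : ℝ) + A.card) / 2) := by
    calc (M : ℝ) * cnt ≤ M * ‖cnt‖ := mul_le_mul_of_nonneg_left (Real.le_norm_self _) hM.le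
      _ ≤ _ := h5
      _ = _ := by ring
  exact le_of_mul_le_mul_left h6 hM

end

end Pool.Agent.TH940.WD
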