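import Pool.Agent.TH882.WM7

/-! A set of positive lower density plus some k-th powers is dense in all windows of all classes. -/

set_option autoImplicit false

namespace Pool.Agent.TH940.WD

open Finset Filter Topology
open Pool.Agent.TH882.WM (Loc)

open Classical in
/-- number of elements of `A` below `n` -/
noncomputable def cnt (A : Set ℕ) (n : ℕ) : ℕ := ((range n).filter (fun a => a ∈ A)).card

/-- `A` plus `t` k-th powers -/
def Sh (A : Set ℕ) (k t : ℕ) : Set ℕ := {n | ∃ a ∈ A, ∃ x : Fin t → ℕ, n = a + ∑ i, x i ^ k}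

lemma exists_Y (k Q : ℕ) (hk : 1 ≤ k) (hQ : 1 ≤ Q) (κ : ℝ) (hκ : 0 < κ) :
    ∃ N₁ : ℕ, ∀ N : ℕ, N₁ ≤ N → ∀ W : ℕ, W ≤ N → ∀ r : ℕ, r < Q →
      ∃ Y : ℕ, Y % Q = r ∧ W < Y ^ k ∧ ((Y ^ k : ℕ) : ℝ) ≤ W + κ * N := by
  have ht : Tendsto (fun M : ℕ => (1 + 1 / ((M : ℝ) + 1)) ^ k) atTop (𝓝 ((1 + 0) ^ k)) :=
    (tendsto_one_div_add_atTop_nhds_zero_nat.const_add 1).pow k
  rw [add_zero, one_pow] at ht
  obtain ⟨M0, hM0⟩ := (ht.eventually_le_const (show (1 : ℝ) < 1 + κ by linarith)).exists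
  set M : ℕ := M0 + 1 with hM
  have hMr : ((M : ℕ) : ℝ) = (M0 : ℝ) + 1 := by rw [hM]; push_cast; ring
  have hM1 : (0 : ℝ) < M := by rw [hMr]; positivity
  rw [← hMr] at hM0
  refine ⟨⌈(((M + 1) * Q) ^ k : ℕ) / κ⌉₊, ?_⟩
  intro N hN W hW r hr
  have hN1 : ((((M + 1) * Q) ^ k : ℕ) : ℝ) ≤ κ * N := by
    have h1 := Nat.ceil_le.1 hN
    rw [div_le_iff₀ hκ] at h1
    linarith
  have hex : ∃ j : ℕ, W < (r + Q * j) ^ k := by
    refine ⟨W + 1, ?_⟩
    have h1 : r + Q * (W + 1) ≤ (r + Q * (W + 1)) ^ k := Nat.le_self_pow (by omega) _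
    have h2 : W + 1 ≤ Q * (W + 1) := Nat.le_mul_of_pos_left _ (by omega)
    omega
  classical
  have hj := Nat.find_spec hex
  set j := Nat.find hex with hjd
  refine ⟨r + Q * j, by rw [Nat.add_mul_mod_self_left, Nat.mod_eq_of_lt hr], hj, ?_⟩
  have hbig : r + Q * j ≤ (M + 1) * Q → (((r + Q * j) ^ k : ℕ) : ℝ) ≤ W + κ * N := by
    intro h
    have h1 : (((r + Q * j) ^ k : ℕ) : ℝ) ≤ ((((M + 1) * Q) ^ k : ℕ) : ℝ) := by
      exact_mod_cast Nat.pow_le_pow_left h k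
    have h2 : (0 : ℝ) ≤ W := Nat.cast_nonneg _
    linarith
  rcases Nat.eq_zero_or_pos j with h0 | h0
  · apply hbig
    rw [h0]
    nlinarith
  · obtain ⟨i, hi⟩ : ∃ i, j = i + 1 := ⟨j - 1, by omega⟩
    have hmin : ¬ W < (r + Q * i) ^ k := Nat.find_min hex (by omega)
    push Not at hmin
    set V := r + Q * i with hV
    have hYV : r + Q * j = V + Q := by rw [hi, hV]; ring
    rcases le_or_gt (M * Q) V with h1 | h1
    · rw [hYV]
      have h2 : ((V + Q : ℕ) : ℝ) ≤ V * (1 + 1 / (M : ℝ)) := by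
        have h3 : (M : ℝ) * Q ≤ V := by exact_mod_cast h1
        have h4 : (Q : ℝ) ≤ V * (1 / M) := by
          rw [mul_one_div, le_div_iff₀ hM1]
          linarith
        push_cast
        linarith
      have h5 : (((V + Q) ^ k : ℕ) : ℝ) ≤ (V : ℝ) ^ k * (1 + 1 / (M : ℝ)) ^ k := by
        rw [← mul_pow, Nat.cast_pow]
        exact pow_le_pow_left₀ (Nat.cast_nonneg _) h2 k
      have h6 : (V : ℝ) ^ k ≤ W := by exact_mod_cast hmin
      have h7 : (W : ℝ) ≤ N := by exact_mod_cast hW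
      have h8 : (0 : ℝ) ≤ W := Nat.cast_nonneg _
      calc (((V + Q) ^ k : ℕ) : ℝ) ≤ (V : ℝ) ^ k * (1 + 1 / (M : ℝ)) ^ k := h5
        _ ≤ W * (1 + κ) := mul_le_mul h6 hM0 (by positivity) h8
        _ = W + κ * W := by ring
        _ ≤ W + κ * N := by nlinarith
    · apply hbig
      rw [hYV]
      nlinarith

open Classical in
lemma window (k t Q : ℕ) (hk : 1 ≤ k) (ht : 1 ≤ t) (hQ : 1 ≤ Q) (hloc : ∀ N, Loc k Q t N)
    (A : Set ℕ) (δ : ℝ) (hδ : 0 < δ) (n₀ : ℕ) (hA : ∀ n, n₀ ≤ n → δ * n ≤ cnt A n)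
    (κ : ℝ) (hκ : 0 < κ) :
    ∃ N₁ : ℕ, ∀ N : ℕ, N₁ ≤ N → ∀ w : ℕ, w ≤ N → ∀ L : ℕ, κ * N ≤ Q * L → Q * L ≤ w →
      δ / 8 * L ≤ (((range L).filter (fun l => w - Q * l ∈ Sh A k t)).card : ℝ) := by
  obtain ⟨s, rfl⟩ : ∃ s, t = s + 1 := ⟨t - 1, by omega⟩
  obtain ⟨N₂, hY⟩ := exists_Y k Q hk hQ (κ / 8) (by positivity)
  refine ⟨max N₂ (max ⌈8 * (s * Q ^ k : ℕ) / κ⌉₊ ⌈(8 * (n₀ + 1) : ℝ) / κ⌉₊), ?_⟩
  intro N hN w hw L hL1 hL2
  have hQ0 : (0 : ℝ) < Q := by exact_mod_cast hQ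
  have hN2 : N₂ ≤ N := (le_max_left _ _).trans hN
  have hN3 : 8 * ((s * Q ^ k : ℕ) : ℝ) ≤ κ * N := by
    have h1 := Nat.ceil_le.1 (((le_max_left _ _).trans (le_max_right _ _)).trans hN)
    rw [div_le_iff₀ hκ] at h1
    linarith
  have hN4 : (8 * (n₀ + 1) : ℝ) ≤ κ * N := by
    have h1 := Nat.ceil_le.1 (((le_max_right _ _).trans (le_max_right _ _)).trans hN)
    rw [div_le_iff₀ hκ] at h1
    linarith
  set V : ℕ := Q * L / 4 with hV
  have hQL : 8 * (n₀ + 1) ≤ Q * L := by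
    have h1 : (8 * (n₀ + 1) : ℝ) ≤ Q * L := hN4.trans hL1
    exact_mod_cast h1
  have hVn : n₀ ≤ V := by omega
  have hV8 : Q * L ≤ 8 * V := by omega
  have hV4 : 4 * V ≤ Q * L := by omega
  have hcnt := hA V hVn
  have hcnt2 : δ / 8 * (Q * L) ≤ cnt A V := by
    have h1 : ((Q : ℝ) * L) ≤ 8 * V := by exact_mod_cast hV8
    nlinarith
  -- a popular class
  obtain ⟨ρ, hρ, hfib⟩ : ∃ ρ ∈ range Q,
      δ / 8 * L ≤ ((((range V).filter (fun a => a ∈ A)).filter (fun a => a % Q = ρ)).card : ℝ) := by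
    by_contra hcon
    push Not at hcon
    have h1 : (((range V).filter (fun a => a ∈ A)).card : ℝ) =
        ∑ ρ ∈ range Q, ((((range V).filter (fun a => a ∈ A)).filter (fun a => a % Q = ρ)).card : ℝ) := by
      rw [← Nat.cast_sum]
      congr 1
      apply Finset.card_eq_sum_card_fiberwise
      intro a _
      simp only [coe_range, Set.mem_Iio]
      exact Nat.mod_lt _ (by omega)
    have h2 : ∑ ρ ∈ range Q, ((((range V).filter (fun a => a ∈ A)).filter (fun a => a % Q = ρ)).card : ℝ) <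
        ∑ ρ ∈ range Q, δ / 8 * L :=
      sum_lt_sum_of_nonempty ⟨0, mem_range.2 (by omega)⟩ hcon
    rw [sum_const, card_range, nsmul_eq_mul] at h2
    have h3 : (cnt A V : ℝ) = (((range V).filter (fun a => a ∈ A)).card : ℝ) := rfl
    rw [← h1, ← h3] at h2
    linarith
  rw [mem_range] at hρ
  have hL0 : 1 ≤ L := by
    rcases Nat.eq_zero_or_pos L with h | h
    · rw [h] at hQL; omega
    · exact h
  have hQw : Q ≤ w := (Nat.le_mul_of_pos_right Q (by omega)).trans hL2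
  obtain ⟨r, hr⟩ := hloc (w - ρ)
  obtain ⟨Y, hY1, hY2, hY3⟩ := hY N hN2 (w - Q * L) (by omega) (r 0 % Q) (Nat.mod_lt _ (by omega))
  set x : Fin (s + 1) → ℕ := Fin.cons Y (fun i => r i.succ % Q) with hx
  set H : ℕ := ∑ i : Fin s, (r i.succ % Q) ^ k with hH
  have hxs : ∑ i, x i ^ k = Y ^ k + H := by
    rw [Fin.sum_univ_succ, hx]
    simp [hH]
  have hHle : H ≤ s * Q ^ k := by
    rw [hH]
    refine (sum_le_sum (g := fun _ => Q ^ k) fun i _ => ?_).trans ?_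
    · exact Nat.pow_le_pow_left (Nat.mod_lt _ (by omega)).le k
    · simp
  have hmod : Y ^ k + H ≡ w - ρ [MOD Q] := by
    refine Nat.ModEq.trans ?_ hr.symm
    rw [Fin.sum_univ_succ, hH]
    apply Nat.ModEq.add
    · exact Nat.ModEq.pow k hY1
    · exact Nat.ModEq.sum fun i _ => Nat.ModEq.pow k (Nat.mod_modEq _ _)
  -- size
  have hsz : ∀ a < V, a + (Y ^ k + H) ≤ w := by
    intro a ha
    have h1 : ((a + (Y ^ k + H) : ℕ) : ℝ) ≤ w := by
      have h2 : (a : ℝ) ≤ V := by exact_mod_cast ha.le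
      have h3 : (4 : ℝ) * V ≤ Q * L := by exact_mod_cast hV4
      have h4 : ((w - Q * L : ℕ) : ℝ) = w - Q * L := by
        rw [Nat.cast_sub hL2]
        push_cast
        ring
      have h5 : (H : ℝ) ≤ ((s * Q ^ k : ℕ) : ℝ) := by exact_mod_cast hHle
      rw [h4] at hY3
      push_cast at hY3 hN3 h5 ⊢
      have h6 : (0 : ℝ) ≤ Q * L := by positivity
      linarith
    exact_mod_cast h1
  refine hfib.trans ?_
  have hinj : (((range V).filter (fun a => a ∈ A)).filter (fun a => a % Q = ρ)).card ≤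
      ((range L).filter (fun l => w - Q * l ∈ Sh A k (s + 1))).card := by
    have key : ∀ a ∈ ((range V).filter (fun a => a ∈ A)).filter (fun a => a % Q = ρ),
        Q * ((w - (a + (Y ^ k + H))) / Q) = w - (a + (Y ^ k + H)) ∧ a + (Y ^ k + H) ≤ w ∧ a ∈ A := by
      intro a ha
      rw [mem_filter, mem_filter, mem_range] at ha
      obtain ⟨⟨ha1, ha2⟩, ha3⟩ := ha
      have h1 := hsz a ha1
      refine ⟨?_, h1, ha2⟩
      apply Nat.mul_div_cancel'
      have h2 : a + (Y ^ k + H) ≡ w [MOD Q] := by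
        have h3 : a ≡ ρ [MOD Q] := by
          unfold Nat.ModEq
          rw [ha3, Nat.mod_eq_of_lt hρ]
        have h4 := h3.add hmod
        have h5 : ρ + (w - ρ) = w := by omega
        rw [h5] at h4
        exact h4
      exact (Nat.modEq_iff_dvd' h1).1 h2
    apply Finset.card_le_card_of_injOn (fun a => (w - (a + (Y ^ k + H))) / Q)
    · intro a ha
      obtain ⟨h1, h2, h3⟩ := key a ha
      rw [mem_coe, mem_filter, mem_range]
      constructor
      · rw [Nat.div_lt_iff_lt_mul (by omega)]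
        have h4 : w - Q * L < Y ^ k := hY2
        rw [mul_comm L Q]
        omega
      · show w - Q * ((w - (a + (Y ^ k + H))) / Q) ∈ Sh A k (s + 1)
        rw [h1]
        refine ⟨a, h3, x, ?_⟩
        rw [hxs]
        omega
    · intro a ha b hb hab
      obtain ⟨h1, h2, h3⟩ := key a ha
      obtain ⟨h1', h2', h3'⟩ := key b hb
      have h4 : (w - (a + (Y ^ k + H))) / Q = (w - (b + (Y ^ k + H))) / Q := hab
      rw [h4, h1'] at h1
      omega
  exact_mod_cast hinj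

end Pool.Agent.TH940.WD
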