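import Pool.Agent.TH940.WD.W
import Pool.Agent.TH940.WD.D

/-! A set of positive lower density plus k-th powers has density one. -/

set_option autoImplicit false

namespace Pool.Agent.TH940.WD

open Finset Filter Topology
open Pool.Agent.Helper602.MK (ee)
open Pool.Agent.Helper602.MK.N_J5b (norm_ee)
open Pool.Agent.TH882.WM (Loc)

lemma Sh_succ (A : Set ℕ) (k t a x : ℕ) (h : a ∈ Sh A k t) : a + x ^ k ∈ Sh A k (t + 1) := by
  obtain ⟨b, hb, y, rfl⟩ := h
  refine ⟨b, hb, Fin.cons x y, ?_⟩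
  rw [Fin.sum_univ_succ]
  simp only [Fin.cons_zero, Fin.cons_succ]
  ring

lemma exists_X (k D : ℕ) (hk : 1 ≤ k) (hD : 1 ≤ D) (N : ℕ) :
    ∃ X : ℕ, (D * X) ^ k ≤ N ∧ N < (D * (X + 1)) ^ k := by
  classical
  set X := Nat.findGreatest (fun x => (D * x) ^ k ≤ N) N with hX
  refine ⟨X, ?_, ?_⟩
  · exact Nat.findGreatest_spec (P := fun x => (D * x) ^ k ≤ N) (Nat.zero_le N)
      (by show (D * 0) ^ k ≤ N; rw [mul_zero, zero_pow (by omega)]; exact Nat.zero_le _)
  · rcases Nat.lt_or_ge N (X + 1) with h | h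
    · have h1 : D * (X + 1) ≤ (D * (X + 1)) ^ k := Nat.le_self_pow (by omega) _
      have h2 : X + 1 ≤ D * (X + 1) := Nat.le_mul_of_pos_left _ (by omega)
      omega
    · have h1 := Nat.findGreatest_is_greatest (P := fun x => (D * x) ^ k ≤ N) (n := N) (k := X + 1)
        (by rw [← hX]; omega) h
      exact not_le.1 h1

open Classical in
theorem dense (k t : ℕ) (hk : 1 ≤ k) (ht : 1 ≤ t) (hloc : ∀ Q, 1 ≤ Q → ∀ N, Loc k Q t N)
    (A : Set ℕ) (δ : ℝ) (hδ : 0 < δ) (n₀ : ℕ) (hA : ∀ n, n₀ ≤ n → δ * n ≤ cnt A n)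
    (ε : ℝ) (hε : 0 < ε) :
    ∃ N₁ : ℕ, ∀ N : ℕ, N₁ ≤ N →
      (((range N).filter (fun n => n ∉ Sh A k (t + 1))).card : ℝ) ≤ ε * N := by
  set u : ℝ := 1 + 64 / (δ * ε) with hu
  have hu1 : 1 ≤ u := by
    rw [hu]
    have : 0 ≤ 64 / (δ * ε) := by positivity
    linarith
  have hu0 : 0 < u := by linarith
  obtain ⟨Q, hQ1, B, hB1, hW⟩ := weyl_k k hk u hu1
  obtain ⟨D, hD⟩ := exists_nat_ge (8 / ε)
  have hD0 : (0 : ℝ) < D := lt_of_lt_of_le (by positivity) hD
  have hD1 : 1 ≤ D := by exact_mod_cast hD0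
  have hpi := Real.pi_pos
  set C : ℕ := Q + ⌈2 * Real.pi * B * u⌉₊ with hC
  have hCQ : Q ≤ C := by omega
  have hC1 : 1 ≤ C := by omega
  have hCB : 2 * Real.pi * B * u ≤ C := by
    rw [hC]
    push_cast
    have h1 := Nat.le_ceil (2 * Real.pi * B * u)
    have h2 : (0 : ℝ) ≤ Q := Nat.cast_nonneg _
    linarith
  have hC0 : (0 : ℝ) < C := by exact_mod_cast hC1
  have hQ0 : (0 : ℝ) < Q := by exact_mod_cast hQ1
  set κ : ℝ := Q / (2 * C * (2 * D) ^ k) with hκ
  have hκ0 : 0 < κ := by rw [hκ]; positivity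
  obtain ⟨N₂, hwin⟩ := window k t Q hk ht hQ1 (hloc Q hQ1) A δ hδ n₀ hA κ hκ0
  refine ⟨max N₂ (max 1 ((D * (C + 1)) ^ k)), ?_⟩
  intro N hN
  have hN2 : N₂ ≤ N := (le_max_left _ _).trans hN
  have hN1 : 1 ≤ N := ((le_max_left _ _).trans (le_max_right _ _)).trans hN
  have hN3 : (D * (C + 1)) ^ k ≤ N := ((le_max_right _ _).trans (le_max_right _ _)).trans hN
  have hNr : (0 : ℝ) < N := by exact_mod_cast hN1
  obtain ⟨X, hX1, hX2⟩ := exists_X k D hk hD1 N
  have hCX : C < X := by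
    have h1 : (D * (C + 1)) ^ k < (D * (X + 1)) ^ k := lt_of_le_of_lt hN3 hX2
    have h2 : D * (C + 1) < D * (X + 1) := lt_of_pow_lt_pow_left₀ k (Nat.zero_le _) h1
    have h3 := lt_of_mul_lt_mul_left h2 (Nat.zero_le _)
    omega
  have hX0 : (0 : ℝ) < X := by exact_mod_cast (by omega : 0 < X)
  have hXk : X ≤ X ^ k := Nat.le_self_pow (by omega) _
  set L : ℕ := X ^ k / C with hL
  have hL1 : 1 ≤ L := by
    rw [hL, Nat.le_div_iff_mul_le (by omega)]
    omega
  have hCL : C * L ≤ X ^ k := Nat.mul_div_le _ _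
  have hCL2 : X ^ k ≤ 2 * C * L := by
    have h1 : X ^ k < C * (L + 1) := by
      rw [hL]
      have := Nat.lt_mul_div_succ (X ^ k) (show 0 < C by omega)
      exact this
    nlinarith
  have hL0 : (0 : ℝ) < L := by exact_mod_cast hL1
  have hQL : Q * L ≤ X ^ k := (Nat.mul_le_mul_right L hCQ).trans hCL
  have hXN : X ^ k ≤ N := by
    refine le_trans ?_ hX1
    exact Nat.pow_le_pow_left (Nat.le_mul_of_pos_left _ (by omega)) k
  have hXe : (X : ℝ) ^ k ≤ ε / 8 * N := by
    have h1 : (D : ℝ) ^ k * (X : ℝ) ^ k ≤ N := by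
      rw [← mul_pow]
      exact_mod_cast hX1
    have h2 : (D : ℝ) ≤ (D : ℝ) ^ k := by exact_mod_cast Nat.le_self_pow (show k ≠ 0 by omega) D
    have h3 : 8 / ε * (X : ℝ) ^ k ≤ N :=
      (mul_le_mul_of_nonneg_right (hD.trans h2) (by positivity)).trans h1
    rw [div_mul_eq_mul_div, div_le_iff₀ hε] at h3
    linarith
  have hκL : κ * N ≤ Q * L := by
    have h1 : (N : ℝ) ≤ (2 * D) ^ k * (2 * C * L) := by
      have h2 : N ≤ (2 * D) ^ k * (2 * C * L) := by
        calc N ≤ (D * (X + 1)) ^ k := hX2.le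
          _ ≤ (D * (2 * X)) ^ k := Nat.pow_le_pow_left (Nat.mul_le_mul_left _ (by omega)) k
          _ = (2 * D) ^ k * X ^ k := by rw [← mul_pow]; congr 1; ring
          _ ≤ (2 * D) ^ k * (2 * C * L) := Nat.mul_le_mul_left _ hCL2
      exact_mod_cast h2
    rw [hκ, div_mul_eq_mul_div, div_le_iff₀ (by positivity)]
    calc (Q : ℝ) * N ≤ Q * ((2 * D) ^ k * (2 * C * L)) := mul_le_mul_of_nonneg_left h1 hQ0.le
      _ = Q * L * (2 * C * (2 * D) ^ k) := by ring
  set E : Finset ℕ := (range N).filter (fun n => n ∉ Sh A k (t + 1)) with hE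
  set E' : Finset ℕ := E.filter (fun n => 2 * X ^ k ≤ n) with hE'
  set 𝒜 : Finset ℕ := (range N).filter (fun n => n ∈ Sh A k t) with h𝒜
  have hE'N : ∀ e ∈ E', e < N ∧ e ∉ Sh A k (t + 1) ∧ 2 * X ^ k ≤ e := by
    intro e he
    rw [hE', mem_filter, hE, mem_filter, mem_range] at he
    exact ⟨he.1.1, he.1.2, he.2⟩
  have : NeZero (2 * N) := ⟨by omega⟩
  have hpow : ∀ x ∈ range X, x ^ k ≤ X ^ k := fun x hx =>
    Nat.pow_le_pow_left (mem_range.1 hx).le k
  have hσ : ∀ ξ : ZMod (2 * N),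
      ‖∑ x ∈ range X, (ZMod.stdAddChar (ξ * ((x ^ k : ℕ) : ZMod (2 * N))) : ℂ)‖ *
      ‖(L : ℂ) - ∑ l ∈ range L, (ZMod.stdAddChar (ξ * ((Q * l : ℕ) : ZMod (2 * N))) : ℂ)‖ ≤
        2 * X * L / u := by
    intro ξ
    have e1 : ∀ n : ℕ, (ZMod.stdAddChar (ξ * (n : ZMod (2 * N))) : ℂ) =
        ee ((ξ.val : ℝ) / (2 * N : ℕ) * n) := fun n => chi_ee ξ n
    set θ : ℝ := (ξ.val : ℝ) / (2 * N : ℕ) with hθ
    have e2 : ∑ x ∈ range X, (ZMod.stdAddChar (ξ * ((x ^ k : ℕ) : ZMod (2 * N))) : ℂ) =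
        ∑ x ∈ range X, ee (θ * ((x ^ k : ℕ) : ℝ)) := sum_congr rfl fun x _ => e1 _
    have e3 : ∑ l ∈ range L, (ZMod.stdAddChar (ξ * ((Q * l : ℕ) : ZMod (2 * N))) : ℂ) =
        ∑ l ∈ range L, ee ((l : ℝ) * (Q * θ)) := by
      apply sum_congr rfl
      intro l _
      rw [e1]
      congr 1
      push_cast
      ring
    rw [e2, e3]
    set S := ‖∑ x ∈ range X, ee (θ * ((x ^ k : ℕ) : ℝ))‖ with hS
    have hSX : S ≤ X := by
      rw [hS]
      refine (norm_sum_le _ _).trans (le_of_eq ?_)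
      rw [sum_congr rfl fun x _ => norm_ee _, sum_const, card_range, nsmul_eq_mul, mul_one]
    have hS0 : 0 ≤ S := norm_nonneg _
    rcases le_or_gt (X : ℝ) (u * S) with h | h
    · obtain ⟨a, ha⟩ := hW X (by omega) θ h
      have h1 := lin_close L (Q * θ) a
      have h2 : 2 * Real.pi * (L * (L * |Q * θ - a|)) ≤ L / u := by
        have h3 : (L : ℝ) * C ≤ (X : ℝ) ^ k := by
          have : L * C ≤ X ^ k := by rw [mul_comm]; exact hCL
          exact_mod_cast this
        have h4 : (L : ℝ) * |Q * θ - a| ≤ L * (B / (X : ℝ) ^ k) :=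
          mul_le_mul_of_nonneg_left ha hL0.le
        have h5 : 2 * Real.pi * ((L : ℝ) * (B / (X : ℝ) ^ k)) ≤ 1 / u := by
          rw [le_div_iff₀ hu0]
          have h6 : 2 * Real.pi * ((L : ℝ) * (B / (X : ℝ) ^ k)) * u =
              (L : ℝ) * (2 * Real.pi * B * u) / (X : ℝ) ^ k := by
            field_simp
          rw [h6, div_le_one (by positivity)]
          exact (mul_le_mul_of_nonneg_left hCB hL0.le).trans h3
        calc 2 * Real.pi * (L * (L * |Q * θ - a|)) = L * (2 * Real.pi * (L * |Q * θ - a|)) := by ring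
          _ ≤ L * (2 * Real.pi * ((L : ℝ) * (B / (X : ℝ) ^ k))) := by gcongr
          _ ≤ L * (1 / u) := mul_le_mul_of_nonneg_left h5 hL0.le
          _ = L / u := by ring
      calc S * ‖(L : ℂ) - ∑ l ∈ range L, ee ((l : ℝ) * (Q * θ))‖ ≤ X * (L / u) :=
            mul_le_mul hSX (h1.trans h2) (norm_nonneg _) hX0.le
        _ ≤ 2 * X * L / u := by
            have : (0 : ℝ) ≤ X * (L / u) := by positivity
            have e : 2 * (X : ℝ) * L / u = 2 * (X * (L / u)) := by ring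
            linarith
    · have h1 : S ≤ X / u := by
        rw [le_div_iff₀ hu0]
        linarith
      have h2 : ‖(L : ℂ) - ∑ l ∈ range L, ee ((l : ℝ) * (Q * θ))‖ ≤ 2 * L := by
        refine (norm_sub_le _ _).trans ?_
        rw [Complex.norm_natCast]
        have h3 : ‖∑ l ∈ range L, ee ((l : ℝ) * (Q * θ))‖ ≤ L := by
          refine (norm_sum_le _ _).trans (le_of_eq ?_)
          rw [sum_congr rfl fun x _ => norm_ee _, sum_const, card_range, nsmul_eq_mul, mul_one]
        linarith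
      calc S * ‖(L : ℂ) - ∑ l ∈ range L, ee ((l : ℝ) * (Q * θ))‖ ≤ X / u * (2 * L) :=
            mul_le_mul h1 h2 (norm_nonneg _) (by positivity)
        _ = 2 * X * L / u := by ring
  have hmain := count_ineq (M := 2 * N) E' 𝒜 (fun e he => by have := (hE'N e he).1; omega)
    (fun a ha => by rw [h𝒜, mem_filter, mem_range] at ha; omega) X L (fun x => x ^ k) (fun l => Q * l)
    (by
      intro e he a ha x hx h
      rw [h𝒜, mem_filter, mem_range] at ha
      obtain ⟨he1, he2, he3⟩ := hE'N e he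
      have h1 : (e : ZMod (2 * N)) = ((a + x ^ k : ℕ) : ZMod (2 * N)) := by
        rw [h]; push_cast; ring
      rw [ZMod.natCast_eq_natCast_iff'] at h1
      have h2 := hpow x hx
      rw [Nat.mod_eq_of_lt (by omega), Nat.mod_eq_of_lt (by omega)] at h1
      apply he2
      rw [h1]
      exact Sh_succ A k t a x ha.2)
    (2 * X * L / u) hσ
  -- lower bound
  have hlow : (E'.card : ℝ) * (X * (δ / 8 * L)) ≤
      ∑ e ∈ E', ∑ a ∈ 𝒜, ∑ x ∈ range X, ∑ l ∈ range L,
      (if (e : ZMod (2 * N)) = a + ((x ^ k : ℕ) : ZMod (2 * N)) + ((Q * l : ℕ) : ZMod (2 * N))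
        then (1 : ℝ) else 0) := by
    rw [← nsmul_eq_mul, ← sum_const]
    apply sum_le_sum
    intro e he
    obtain ⟨he1, he2, he3⟩ := hE'N e he
    rw [sum_comm]
    have hc : (X : ℝ) * (δ / 8 * L) = ∑ x ∈ range X, δ / 8 * (L : ℝ) := by
      rw [sum_const, card_range, nsmul_eq_mul]
    rw [hc]
    apply sum_le_sum
    intro x hx
    have hxk := hpow x hx
    rw [sum_comm]
    have h1 := hwin N hN2 (e - x ^ k) (by omega) L hκL (by omega)
    refine h1.trans ?_
    rw [card_filter, Nat.cast_sum]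
    apply sum_le_sum
    intro l hl
    rw [mem_range] at hl
    have hQl : Q * l ≤ Q * L := Nat.mul_le_mul_left _ hl.le
    split_ifs with h
    · have h2 : e - x ^ k - Q * l ∈ 𝒜 := by
        rw [h𝒜, mem_filter, mem_range]
        exact ⟨by omega, h⟩
      have h3 : (if (e : ZMod (2 * N)) = ((e - x ^ k - Q * l : ℕ) : ZMod (2 * N)) +
          ((x ^ k : ℕ) : ZMod (2 * N)) + ((Q * l : ℕ) : ZMod (2 * N)) then (1 : ℝ) else 0) = 1 := by
        rw [if_pos]
        have h4 : e = (e - x ^ k - Q * l) + x ^ k + Q * l := by omega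
        conv_lhs => rw [h4]
        push_cast
        ring
      have h5 := single_le_sum (s := 𝒜) (f := fun a : ℕ => (if (e : ZMod (2 * N)) = (a : ZMod (2 * N)) +
          ((x ^ k : ℕ) : ZMod (2 * N)) + ((Q * l : ℕ) : ZMod (2 * N)) then (1 : ℝ) else 0))
          (fun a _ => by split_ifs <;> norm_num) h2
      have h6 := h3.symm.le.trans h5
      rw [Nat.cast_one]
      exact h6
    · rw [Nat.cast_zero]
      exact sum_nonneg fun a _ => by split_ifs <;> norm_num
  have hcards : ((E'.card : ℝ) + 𝒜.card) ≤ 2 * N := by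
    have h1 : E'.card ≤ N := by
      calc E'.card ≤ E.card := card_filter_le _ _
        _ ≤ (range N).card := card_filter_le _ _
        _ = N := card_range N
    have h2 : 𝒜.card ≤ N := by
      calc 𝒜.card ≤ (range N).card := card_filter_le _ _
        _ = N := card_range N
    have h3 : (E'.card : ℝ) ≤ N := by exact_mod_cast h1
    have h4 : (𝒜.card : ℝ) ≤ N := by exact_mod_cast h2
    linarith
  have h7 : (E'.card : ℝ) * (X * (δ / 8 * L)) ≤ 2 * X * L / u * N := by
    refine (hlow.trans hmain).trans ?_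
    have h8 : 0 ≤ 2 * (X : ℝ) * L / u := by positivity
    calc 2 * (X : ℝ) * L / u * ((E'.card : ℝ) + 𝒜.card) / 2 ≤ 2 * X * L / u * (2 * N) / 2 := by
          gcongr
      _ = 2 * X * L / u * N := by ring
  have h8 : (E'.card : ℝ) ≤ ε / 4 * N := by
    have h9 : (E'.card : ℝ) * δ * u ≤ 16 * N := by
      have h10 : (E'.card : ℝ) * (X * (δ / 8 * L)) * u ≤ 2 * X * L * N := by
        have h11 := mul_le_mul_of_nonneg_right h7 hu0.le
        have e : 2 * (X : ℝ) * L / u * N * u = 2 * X * L * N := by field_simp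
        rw [e] at h11
        exact h11
      have h12 : (X * L : ℝ) * ((E'.card : ℝ) * δ * u) ≤ (X * L : ℝ) * (16 * N) := by nlinarith
      exact le_of_mul_le_mul_left h12 (by positivity)
    have h10 : 64 ≤ δ * ε * u := by
      have h11 : δ * ε * (64 / (δ * ε)) = 64 := by field_simp
      have h12 : 0 < δ * ε := by positivity
      rw [hu]
      nlinarith
    have hc0 : (0 : ℝ) ≤ E'.card := Nat.cast_nonneg _
    have h11 : (E'.card : ℝ) * 64 ≤ 16 * N * ε := by
      calc (E'.card : ℝ) * 64 ≤ E'.card * (δ * ε * u) := mul_le_mul_of_nonneg_left h10 hc0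
        _ = (E'.card : ℝ) * δ * u * ε := by ring
        _ ≤ 16 * N * ε := mul_le_mul_of_nonneg_right h9 hε.le
    linarith
  have h9 : (E.card : ℝ) ≤ E'.card + 2 * (X : ℝ) ^ k := by
    have h10 : E ⊆ E' ∪ range (2 * X ^ k) := by
      intro e he
      rw [mem_union, mem_range]
      by_cases h : 2 * X ^ k ≤ e
      · left
        rw [hE', mem_filter]
        exact ⟨he, h⟩
      · right
        omega
    have h11 : E.card ≤ E'.card + 2 * X ^ k := by
      refine (card_le_card h10).trans ((card_union_le _ _).trans ?_)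
      rw [card_range]
    exact_mod_cast h11
  have h10 : (0 : ℝ) ≤ ε * N := by positivity
  linarith

end Pool.Agent.TH940.WD
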