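import Pool.Agent.TH940.WD.F

/-! Two sets of positive lower density plus k-th powers. -/

set_option autoImplicit false

namespace Pool.Agent.TH940.WD

open Finset Filter Topology
open Pool.Agent.TH882.WM (Loc)

open Classical in
theorem two (k t : ℕ) (hk : 1 ≤ k) (ht : 1 ≤ t) (hloc : ∀ Q, 1 ≤ Q → ∀ N, Loc k Q t N)
    (A : Set ℕ) (δ : ℝ) (hδ : 0 < δ) (n₀ : ℕ) (hA : ∀ n, n₀ ≤ n → δ * n ≤ cnt A n)
    (B : Set ℕ) (β : ℝ) (hβ : 0 < β) (m₀ : ℕ) (hB : ∀ n, m₀ ≤ n → β * n ≤ cnt B n) :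
    ∃ N₁ : ℕ, ∀ n : ℕ, N₁ ≤ n → ∃ b ∈ B, ∃ c ∈ Sh A k (t + 1), n = b + c := by
  obtain ⟨N₁, hN⟩ := dense k t hk ht hloc A δ hδ n₀ hA (β / 4) (by positivity)
  refine ⟨max N₁ (max m₀ 1), ?_⟩
  intro n hn
  have hn1 : N₁ ≤ n := (le_max_left _ _).trans hn
  have hn2 : m₀ ≤ n := ((le_max_left _ _).trans (le_max_right _ _)).trans hn
  have hn3 : 1 ≤ n := ((le_max_right _ _).trans (le_max_right _ _)).trans hn
  by_contra hcon
  push Not at hcon
  have h1 := hN (n + 1) (by omega)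
  have h2 := hB n hn2
  have h3 : cnt B n ≤ ((range (n + 1)).filter (fun m => m ∉ Sh A k (t + 1))).card := by
    unfold cnt
    apply Finset.card_le_card_of_injOn (fun b => n - b)
    · intro b hb
      rw [mem_coe, mem_filter, mem_range] at hb
      rw [mem_coe, mem_filter, mem_range]
      show n - b < n + 1 ∧ n - b ∉ Sh A k (t + 1)
      refine ⟨by omega, ?_⟩
      intro h
      exact hcon b hb.2 _ h (by omega)
    · intro b hb c hc hbc
      rw [mem_coe, mem_filter, mem_range] at hb hc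
      have h4 : n - b = n - c := hbc
      omega
  have h4 : (cnt B n : ℝ) ≤ (((range (n + 1)).filter (fun m => m ∉ Sh A k (t + 1))).card : ℝ) := by
    exact_mod_cast h3
  have h5 : (1 : ℝ) ≤ n := by exact_mod_cast hn3
  push_cast at h1
  nlinarith

end Pool.Agent.TH940.WD
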